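import Pool.Agent.H2.ST.Targets

set_option autoImplicit false
set_option linter.unusedVariables false

namespace Pool.Agent.H42.ST2

open Pool.Agent.H2.ST MvPolynomial

theorem com_key {k : Type} [Field k] {m : ℕ} {Γ : Type} [AddCommGroup Γ]
    {W : Γ → Submodule k (Pol k m)} (hG : Gr W) {α β : Γ} {p q : Pol k m} (hp : Prime p)
    (hq : Prime q) (hpW : p ∈ W α) (hqW : q ∈ W β) (hne : α ≠ β) (h1 : p ^ 1 ∣ br p q)
    (h2 : q ^ 1 ∣ br p q) : br p q = 0 := by
  rw [pow_one] at h1 h2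
  apply br_eq_zero_of_dvd
  obtain ⟨r, hr⟩ := h1
  rw [hr] at h2
  have h3 : ¬ q ∣ p := by
    intro h
    have h4 : Associated q p := hq.associated_of_dvd hp h
    obtain ⟨ε, hε⟩ := h4
    obtain ⟨c, hc, hc2⟩ := MvPolynomial.isUnit_iff_eq_C_of_isReduced.1 ε.isUnit
    have h5 : p = c • q := by
      rw [← hε, hc2, MvPolynomial.smul_eq_C_mul, mul_comm]
    have h6 : p ∈ W β := by
      rw [h5]
      exact (W β).smul_mem c hqW
    exact hne (wt_uniq hG hpW h6 hp.ne_zero)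
  obtain ⟨s, hs⟩ := (hq.dvd_or_dvd h2).resolve_left h3
  exact ⟨s, by rw [hr, hs]; ring⟩

theorem pf_COM : T_COM := by
  intro k _ m Γ _ W a a' π π' u v u' v' c c' hW h h' h1 h2
  have hpa := h.pa
  have hpa' := h'.pa
  refine ⟨?_, ?_, ?_, ?_⟩
  · refine com_key hW.toGr h.pu h'.pu h.hu h'.hu ?_ ?_ ?_
    · intro he
      rw [he] at hpa
      omega
    · refine h.pos 1 (a + a') ?_ _ (hW.pbr _ _ _ _ h.hu h'.hu)
      rw [map_add, h1]
      simp
    · refine h'.pos 1 (a + a') ?_ _ (hW.pbr _ _ _ _ h.hu h'.hu)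
      rw [map_add, h2]
      simp
  · refine com_key hW.toGr h.pu h'.pv h.hu h'.hv ?_ ?_ ?_
    · intro he
      rw [he, map_neg] at hpa
      omega
    · refine h.pos 1 (a + -a') ?_ _ (hW.pbr _ _ _ _ h.hu h'.hv)
      rw [map_add, map_neg, h1]
      simp
    · refine h'.neg 1 (a + -a') ?_ _ (hW.pbr _ _ _ _ h.hu h'.hv)
      rw [map_add, map_neg, h2]
      simp
  · refine com_key hW.toGr h.pv h'.pu h.hv h'.hu ?_ ?_ ?_
    · intro he
      rw [← he, map_neg] at h1
      omega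
    · refine h.neg 1 (-a + a') ?_ _ (hW.pbr _ _ _ _ h.hv h'.hu)
      rw [map_add, map_neg, h1]
      simp
    · refine h'.pos 1 (-a + a') ?_ _ (hW.pbr _ _ _ _ h.hv h'.hu)
      rw [map_add, map_neg, h2]
      simp
  · refine com_key hW.toGr h.pv h'.pv h.hv h'.hv ?_ ?_ ?_
    · intro he
      have he2 : a = a' := neg_injective he
      rw [he2] at hpa
      omega
    · refine h.neg 1 (-a + -a') ?_ _ (hW.pbr _ _ _ _ h.hv h'.hv)
      rw [map_add, map_neg, map_neg, h1]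
      simp
    · refine h'.neg 1 (-a + -a') ?_ _ (hW.pbr _ _ _ _ h.hv h'.hv)
      rw [map_add, map_neg, map_neg, h2]
      simp

end Pool.Agent.H42.ST2
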