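import Pool.Agent.H2.ST.Targets

set_option autoImplicit false
set_option linter.unusedVariables false

namespace Pool.Agent.H42.ST2

open Pool.Agent.H2.ST MvPolynomial

section

variable {R : Type} [CommRing R] {D : R → R}

theorem D_zero (h : LND D) : D 0 = 0 := by
  have h1 := h.add 0 0
  rw [add_zero] at h1
  exact left_eq_add.1 h1

theorem it_zero (h : LND D) (n : ℕ) : D^[n] 0 = 0 := by
  induction n with
  | zero => rfl
  | succ n ih => rw [Function.iterate_succ_apply, D_zero h, ih]

theorem it_add (h : LND D) (n : ℕ) (a b : R) : D^[n] (a + b) = D^[n] a + D^[n] b := by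
  induction n generalizing a b with
  | zero => rfl
  | succ n ih =>
    rw [Function.iterate_succ_apply, Function.iterate_succ_apply, Function.iterate_succ_apply,
      h.add, ih]

theorem it_ge (h : LND D) {m n : ℕ} (hmn : m ≤ n) {a : R} (ha : D^[m] a = 0) : D^[n] a = 0 := by
  obtain ⟨j, rfl⟩ := Nat.exists_eq_add_of_le hmn
  rw [Nat.add_comm, Function.iterate_add_apply, ha, it_zero h]

theorem leib (h : LND D) (n : ℕ) : ∀ (a b : R) (p q : ℕ), p + q = n → D^[p + 1] a = 0 →
    D^[q + 1] b = 0 → D^[n] (a * b) = (n.choose p : R) * (D^[p] a * D^[q] b) ∧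
      D^[n + 1] (a * b) = 0 := by
  induction n with
  | zero =>
    intro a b p q hpq ha hb
    obtain rfl : p = 0 := by omega
    obtain rfl : q = 0 := by omega
    have ha' : D a = 0 := ha
    have hb' : D b = 0 := hb
    refine ⟨by simp, ?_⟩
    show D (a * b) = 0
    rw [h.mul, ha', hb', mul_zero, mul_zero, add_zero]
  | succ n ih =>
    intro a b p q hpq ha hb
    have e1 : D^[n] (a * D b) = (n.choose p : R) * (D^[p] a * D^[q] b) ∧
        D^[n + 1] (a * D b) = 0 := by
      rcases q with _ | q
      · have hb' : D b = 0 := hb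
        obtain rfl : p = n + 1 := by omega
        rw [hb', mul_zero, it_zero h, it_zero h]
        simp
      · have := ih a (D b) p q (by omega) ha hb
        exact this
    have e2 : D^[n] (b * D a) + (n.choose p : R) * (D^[p] a * D^[q] b) =
        ((n + 1).choose p : R) * (D^[p] a * D^[q] b) ∧ D^[n + 1] (b * D a) = 0 := by
      rcases p with _ | p
      · have ha' : D a = 0 := ha
        rw [ha', mul_zero, it_zero h, it_zero h]
        simp
      · have h2 := ih (D a) b p q (by omega) ha hb
        rw [mul_comm b (D a)]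
        refine ⟨?_, h2.2⟩
        rw [h2.1]
        have h3 : D^[p] (D a) = D^[p + 1] a := rfl
        rw [h3, Nat.choose_succ_succ]
        push_cast
        ring
    have hs : ∀ j, D^[j + 1] (a * b) = D^[j] (a * D b) + D^[j] (b * D a) := by
      intro j
      rw [Function.iterate_succ_apply, h.mul, it_add h]
    constructor
    · rw [hs, e1.1, ← e2.1]
      ring
    · rw [hs, e1.2, e2.2, add_zero]

end

theorem pf_DEG : T_DEG := by
  intro R _ _ _ D h
  classical
  have hex : ∀ a : R, ∃ n, D^[n + 1] a = 0 := by
    intro a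
    obtain ⟨n, hn⟩ := h.nil a
    exact ⟨n, it_ge h (Nat.le_succ n) hn⟩
  refine ⟨fun a => Nat.find (hex a), ?_, ?_, ?_⟩
  · intro a
    rw [Nat.find_eq_zero]
    rfl
  · intro a b hab
    have ha : a ≠ 0 := left_ne_zero_of_mul hab
    have hb : b ≠ 0 := right_ne_zero_of_mul hab
    have hne : ∀ c : R, c ≠ 0 → D^[Nat.find (hex c)] c ≠ 0 := by
      intro c hc
      rcases hp : Nat.find (hex c) with _ | p
      · exact hc
      · exact Nat.find_min (hex c) (by omega)
    have hp := hne a ha
    have hq := hne b hb
    obtain ⟨h1, h2⟩ := leib h _ a b _ _ rfl (Nat.find_spec (hex a)) (Nat.find_spec (hex b))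
    have hnz : D^[Nat.find (hex a) + Nat.find (hex b)] (a * b) ≠ 0 := by
      rw [h1]
      refine mul_ne_zero ?_ (mul_ne_zero hp hq)
      exact Nat.cast_ne_zero.2 (Nat.choose_pos (Nat.le_add_right _ _)).ne'
    apply le_antisymm
    · exact Nat.find_min' (hex (a * b)) h2
    · by_contra hlt
      push Not at hlt
      exact hnz (it_ge h (Nat.succ_le_of_lt hlt) (Nat.find_spec (hex (a * b))))
  · intro a hDa
    have h0 : Nat.find (hex a) ≠ 0 := by
      intro h0
      rw [Nat.find_eq_zero] at h0
      exact hDa h0
    obtain ⟨p, hp⟩ := Nat.exists_eq_succ_of_ne_zero h0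
    apply le_antisymm
    · have h1 := Nat.find_spec (hex a)
      rw [hp] at h1
      have h2 : Nat.find (hex (D a)) ≤ p := Nat.find_min' (hex (D a)) h1
      show Nat.find (hex (D a)) + 1 ≤ Nat.find (hex a)
      omega
    · exact Nat.find_min' (hex a) (Nat.find_spec (hex (D a)))

end Pool.Agent.H42.ST2
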