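import Pool.Agent.H2.ST.Targets

set_option autoImplicit false
set_option linter.unusedVariables false

namespace Pool.Agent.H42.ST2

open Pool.Agent.H2.ST MvPolynomial

theorem pf_LDV (h1 : T_DEG) : T_LDV := by
  intro R _ _ _ D h a hdvd
  by_contra hne
  obtain ⟨dg, h0, hm, hs⟩ := h1 R D h
  obtain ⟨b, hb⟩ := hdvd
  have hab : a * b ≠ 0 := hb ▸ hne
  have e1 := hm a b hab
  have e2 := hs a hne
  rw [← hb] at e1
  omega

end Pool.Agent.H42.ST2
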