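import Pool.Agent.H2.ST.Targets

set_option autoImplicit false
set_option linter.unusedVariables false

namespace Pool.Agent.H42.ST2

open Pool.Agent.H2.ST MvPolynomial

theorem pf_LFC (h1 : T_DEG) : T_LFC := by
  intro R _ _ _ D h a b hab h2
  obtain ⟨dg, h0, hm, hs⟩ := h1 R D h
  have e1 := hm a b hab
  have e2 := (h0 (a * b)).2 h2
  exact ⟨(h0 a).1 (by omega), (h0 b).1 (by omega)⟩

end Pool.Agent.H42.ST2
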