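import Pool.Agent.H2.ST.Targets

set_option autoImplicit false
set_option linter.unusedVariables false

namespace Pool.Agent.H42.ST2

open Pool.Agent.H2.ST MvPolynomial

theorem pf_PAR (h1 : T_PRM) (h2 : T_COA) (h3 : T_ONE) (h4 : T_OPT) : T_PAR := by
  intro k _ _ m Γ _ _ W y w i π hW hA hpos hz
  obtain ⟨u, su, e1, pu, hu, _, u0, su0⟩ := h1 k m Γ W hW (w i) (y (Sum.inl i)) (y (Sum.inr i))
    (hA.hl i) (hA.hz _) (by rw [hA.lr i i, if_pos rfl]; exact one_ne_zero)
  obtain ⟨v, sv, e2, pv, hv, _, v0, sv0⟩ := h1 k m Γ W hW (-(w i)) (y (Sum.inr i)) (y (Sum.inl i))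
    (hA.hr i) (hA.hz _) (by
      rw [br_anti, map_neg, hA.lr i i, if_pos rfl]
      exact neg_ne_zero.2 one_ne_zero)
  have hW' : PGr (co W π) := h2 k m Γ ℤ W π hW
  have hA' : Ada (co W π) y (fun j => π (w j)) := by
    refine ⟨?_, ?_, hA.hz, hA.lr, hA.ll, hA.rr⟩
    · intro j
      exact le_co W π (w j) (hA.hl j)
    · intro j
      have := le_co W π (-w j) (hA.hr j)
      rw [map_neg] at this
      exact this
  have hv' : v ∈ co W π (-(π (w i))) := by
    have := le_co W π (-w i) hv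
    rw [map_neg] at this
    exact this
  have hOne : One (co W π) (π (w i)) u v :=
    h3 k m (co W π) y (fun j => π (w j)) i u v su sv hW' hA' hpos hz pu pv u0 v0
      (le_co W π (w i) hu) hv' e1 e2
  obtain ⟨c, hc, hvu, f1, f2, hgen⟩ := h4 k m (co W π) (π (w i)) u v hOne
  refine ⟨u, v, c, ⟨hpos, pu, pv, hu, hv, hc, hvu, ?_, ?_, ?_, ?_, ?_⟩⟩
  · intro n χ hn f hf
    have hf' := le_co W π χ hf
    by_cases hd : π (w i) ∣ π χ
    · obtain ⟨j, hj⟩ := hd
      have hnj : (n : ℤ) ≤ j := by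
        rw [hj, mul_comm] at hn
        exact le_of_mul_le_mul_left hn hpos
      have hj0 : ((j.toNat : ℕ) : ℤ) = j := Int.toNat_of_nonneg (by omega)
      rw [hj, ← hj0] at hf'
      obtain ⟨g, _, hg⟩ := hOne.du j.toNat f hf'
      rw [hg]
      exact Dvd.dvd.mul_right (pow_dvd_pow _ (by omega)) _
    · rw [hOne.dz _ hd f hf']
      exact dvd_zero _
  · intro n χ hn f hf
    have hf' := le_co W π χ hf
    by_cases hd : π (w i) ∣ π χ
    · obtain ⟨j, hj⟩ := hd
      have hnj : (n : ℤ) ≤ -j := by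
        rw [hj, mul_comm, ← mul_neg] at hn
        exact le_of_mul_le_mul_left hn hpos
      have hj0 : (((-j).toNat : ℕ) : ℤ) = -j := Int.toNat_of_nonneg (by omega)
      have e3 : π χ = -(π (w i) * (((-j).toNat : ℕ) : ℤ)) := by
        rw [hj0, hj]
        ring
      rw [e3] at hf'
      obtain ⟨g, _, hg⟩ := hOne.dv (-j).toNat f hf'
      rw [hg]
      exact Dvd.dvd.mul_right (pow_dvd_pow _ (by omega)) _
    · rw [hOne.dz _ hd f hf']
      exact dvd_zero _
  · intro χ hχ f hf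
    exact hOne.dz _ hχ f (le_co W π χ hf)
  · intro χ hχ f hf
    have hf' := le_co W π χ hf
    rw [hχ] at hf'
    exact ⟨f1 f hf', f2 f hf'⟩
  · intro f
    refine Algebra.adjoin_mono ?_ (hgen f)
    apply Set.union_subset_union_left
    rintro g ⟨_, g1, g2⟩
    intro h hh
    rcases hh with rfl | hh
    · exact g1
    · rw [Set.mem_singleton_iff] at hh
      rw [hh]
      exact g2

end Pool.Agent.H42.ST2
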