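import Pool.Agent.H2.ST.Targets

set_option autoImplicit false
set_option linter.unusedVariables false

namespace Pool.Agent.H42.ST2

open Pool.Agent.H2.ST MvPolynomial

namespace TRC

variable {R : Type} [CommRing R] {D : R → R}

theorem D_zero (h : LND D) : D 0 = 0 := by
  have h1 := h.add 0 0
  rw [add_zero] at h1
  exact left_eq_add.1 h1

theorem it_zero (h : LND D) (n : ℕ) : D^[n] 0 = 0 := by
  induction n with
  | zero => rfl
  | succ n ih => rw [Function.iterate_succ_apply, D_zero h, ih]

theorem it_add (h : LND D) (n : ℕ) (a b : R) : D^[n] (a + b) = D^[n] a + D^[n] b := by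
  induction n generalizing a b with
  | zero => rfl
  | succ n ih =>
    rw [Function.iterate_succ_apply, Function.iterate_succ_apply, Function.iterate_succ_apply,
      h.add, ih]

theorem it_sum (h : LND D) (n : ℕ) (m : ℕ) (f : ℕ → R) :
    D^[n] (∑ i ∈ Finset.range m, f i) = ∑ i ∈ Finset.range m, D^[n] (f i) := by
  induction m with
  | zero => simp [it_zero h]
  | succ m ih => rw [Finset.sum_range_succ, it_add h, ih, Finset.sum_range_succ]

theorem D_one (h : LND D) : D 1 = 0 := by
  have h1 := h.mul 1 1
  simp only [one_mul] at h1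
  exact left_eq_add.1 h1

theorem D_nat (h : LND D) (n : ℕ) : D (n : R) = 0 := by
  induction n with
  | zero => simpa using D_zero h
  | succ n ih =>
    push_cast
    rw [h.add, ih, D_one h, add_zero]

theorem it_ker (h : LND D) {c : R} (hc : D c = 0) (n : ℕ) (x : R) :
    D^[n] (c * x) = c * D^[n] x := by
  induction n generalizing x with
  | zero => rfl
  | succ n ih =>
    rw [Function.iterate_succ_apply, Function.iterate_succ_apply, h.mul, hc, mul_zero, add_zero, ih]

theorem D_pow (h : LND D) (s : R) (j : ℕ) : D (s ^ (j + 1)) = ((j + 1 : ℕ) : R) * D s * s ^ j := by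
  induction j with
  | zero => simp
  | succ j ih =>
    rw [pow_succ, h.mul, ih]
    push_cast
    ring

theorem it_pow (h : LND D) {s : R} (hs : D (D s) = 0) (n : ℕ) : ∀ i, i ≤ n →
    D^[n] (s ^ i) = if i < n then 0 else (n.factorial : R) * (D s) ^ n := by
  induction n with
  | zero =>
    intro i hi
    obtain rfl : i = 0 := by omega
    simp
  | succ n ih =>
    intro i hi
    rw [Function.iterate_succ_apply]
    rcases i with _ | j
    · rw [pow_zero, D_one h, it_zero h, if_pos (by omega)]
    · have hk : D (((j + 1 : ℕ) : R) * D s) = 0 := by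
        rw [h.mul, hs, D_nat h, mul_zero, mul_zero, add_zero]
      rw [D_pow h, it_ker h hk, ih j (by omega)]
      by_cases hj : j < n
      · rw [if_pos hj, if_pos (by omega), mul_zero]
      · rw [if_neg hj, if_neg (by omega)]
        obtain rfl : j = n := by omega
        rw [Nat.factorial_succ]
        push_cast
        ring

end TRC

open TRC in
theorem pf_TRC (h1 : T_DEG) : T_TRC := by
  intro R _ _ _ D h s hs hs2 P hP hev
  by_contra hne
  have hlc : P.leadingCoeff ≠ 0 := Polynomial.leadingCoeff_ne_zero.2 hne
  have e1 : D^[P.natDegree] (P.eval s) = 0 := by rw [hev, it_zero h]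
  rw [Polynomial.eval_eq_sum_range, it_sum h, Finset.sum_range_succ] at e1
  have e2 : ∑ i ∈ Finset.range P.natDegree, D^[P.natDegree] (P.coeff i * s ^ i) = 0 := by
    apply Finset.sum_eq_zero
    intro i hi
    have hi' := Finset.mem_range.1 hi
    rw [it_ker h (hP i), it_pow h hs2 _ _ hi'.le, if_pos hi', mul_zero]
  rw [e2, zero_add, it_ker h (hP _), it_pow h hs2 _ _ le_rfl, if_neg (lt_irrefl _)] at e1
  rcases mul_eq_zero.1 e1 with h2 | h2
  · exact hlc h2
  · rcases mul_eq_zero.1 h2 with h3 | h3
    · exact (Nat.cast_ne_zero.2 (Nat.factorial_ne_zero _)) h3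
    · exact hs (eq_zero_of_pow_eq_zero h3)

end Pool.Agent.H42.ST2
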